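import Pool.Agent.K3h5.FF.Stm

/-!
# The law of large numbers for Mallows permutations (brick LLN of project FF, helper9)
-/

set_option autoImplicit false

open Filter Topology Set

namespace Pool.Agent.K3h9.FF

open Pool.Agent.K3h5.FF

theorem mallows_nonneg {q : ℝ} (hq : 0 < q) (n : ℕ) (π : Equiv.Perm (Fin n)) :
    0 ≤ mallows q n π := by
  unfold mallows
  exact div_nonneg (by positivity) (Finset.sum_nonneg fun σ _ => by positivity)

theorem mallows_sum {q : ℝ} (hq : 0 < q) (n : ℕ) :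
    ∑ π : Equiv.Perm (Fin n), mallows q n π = 1 := by
  unfold mallows
  rw [← Finset.sum_div]
  exact div_self (ne_of_gt (Finset.sum_pos (fun π _ => by positivity) Finset.univ_nonempty))

theorem cs {T : Type} [Fintype T] (w A : T → ℝ) (hw : ∀ i, 0 ≤ w i) (h1 : ∑ i, w i = 1) (s : ℝ)
    (hs : 0 < s) (hV : ∑ i, w i * A i ^ 2 ≤ s ^ 2) : ∑ i, w i * |A i| ≤ s := by
  have h2 : ∀ i, w i * |A i| ≤ w i * (s / 2) + w i * A i ^ 2 * (1 / (2 * s)) := by
    intro i
    have h3 : |A i| ≤ s / 2 + A i ^ 2 * (1 / (2 * s)) := by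
      have h4 : |A i| * (2 * s) ≤ (s / 2 + A i ^ 2 * (1 / (2 * s))) * (2 * s) := by
        have e : (s / 2 + A i ^ 2 * (1 / (2 * s))) * (2 * s) = s ^ 2 + A i ^ 2 := by
          field_simp
        rw [e, ← sq_abs (A i)]
        nlinarith [sq_nonneg (s - |A i|)]
      exact le_of_mul_le_mul_right h4 (by positivity)
    nlinarith [mul_le_mul_of_nonneg_left h3 (hw i)]
  calc ∑ i, w i * |A i| ≤ ∑ i, (w i * (s / 2) + w i * A i ^ 2 * (1 / (2 * s))) :=
        Finset.sum_le_sum fun i _ => h2 i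
    _ = s / 2 + (∑ i, w i * A i ^ 2) * (1 / (2 * s)) := by
        rw [Finset.sum_add_distrib, ← Finset.sum_mul, ← Finset.sum_mul, h1, one_mul]
    _ ≤ s / 2 + s ^ 2 * (1 / (2 * s)) := by gcongr
    _ = s := by
        field_simp
        ring

theorem Fc_le {n : ℕ} (t m : ℕ) (π : Equiv.Perm (Fin n)) : Fc t m π ≤ n := by
  unfold Fc
  refine (Finset.card_le_univ _).trans ?_
  rw [Fintype.card_fin]

theorem t_LLN : S_VAR → S_QN → S_GU → S_LLN := by
  intro hV hQ hG q β hq hlim t m x y ht hm htx hmy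
  obtain ⟨-, ⟨K, hK1, hK⟩, hqn⟩ := hQ q β hq hlim
  obtain ⟨gc, g0, g1, glip, gU, -⟩ := hG β
  have hx : x ∈ Icc (0 : ℝ) 1 := ⟨ge_of_tendsto' htx (fun n => by positivity),
    le_of_tendsto htx (ht.mono fun n hn => div_le_one_of_le₀ (by exact_mod_cast hn) (by positivity))⟩
  have hy : y ∈ Icc (0 : ℝ) 1 := ⟨ge_of_tendsto' hmy (fun n => by positivity),
    le_of_tendsto hmy (hm.mono fun n hn => div_le_one_of_le₀ (by exact_mod_cast hn) (by positivity))⟩
  obtain ⟨hU01, hUg, -⟩ := gU x hx y hy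
  obtain ⟨U, hU⟩ : ∃ U, U = UU β x y := ⟨_, rfl⟩
  rw [← hU] at hU01 hUg ⊢
  -- the `q`-numbers
  have key : ∀ (k : ℕ → ℕ) (z : ℝ), (∀ᶠ n in atTop, k n ≤ n) →
      Tendsto (fun n : ℕ => (k n : ℝ) / n) atTop (𝓝 z) →
      Tendsto (fun n : ℕ => qn (q n) (k n) / n) atTop (𝓝 (g β z)) := by
    intro k z hk hz
    have h1 : Tendsto (fun n : ℕ => qn (q n) (k n) / n - g β (k n / n)) atTop (𝓝 0) := by
      rw [Metric.tendsto_nhds]
      intro ε hε
      filter_upwards [hqn (ε / 2) (by positivity), hk] with n hn hkn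
      rw [Real.dist_eq, sub_zero]
      linarith [hn (k n) hkn]
    have h2 : Tendsto (fun n : ℕ => g β ((k n : ℝ) / n)) atTop (𝓝 (g β z)) :=
      (gc.tendsto z).comp hz
    have h3 := h1.add h2
    simpa using h3
  have hone : Tendsto (fun n : ℕ => ((n : ℕ) : ℝ) / n) atTop (𝓝 1) := by
    refine tendsto_const_nhds.congr' ?_
    filter_upwards [eventually_gt_atTop 0] with n hn
    rw [div_self]
    positivity
  obtain ⟨c, hc⟩ : ∃ c : ℕ → ℝ, c = fun n : ℕ => (qn (q n) (m n) / n) * (qn (q n) (t n) / n) /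
      (qn (q n) n / n) := ⟨_, rfl⟩
  have hcl : Tendsto c atTop (𝓝 (g β U)) := by
    rw [hc, hUg]
    have h1 := ((key m y hm hmy).mul (key t x ht htx)).div
      (key (fun n => n) 1 (Eventually.of_forall fun n => le_refl n) hone) g1.ne'
    rwa [mul_comm (g β y)] at h1
  have hroot : Tendsto (fun n : ℕ => K * √(n : ℝ) / n) atTop (𝓝 0) := by
    have h1 : Tendsto (fun n : ℕ => √(n : ℝ)) atTop atTop :=
      Real.tendsto_sqrt_atTop.comp tendsto_natCast_atTop_atTop
    have h2 : Tendsto (fun n : ℕ => K / √(n : ℝ)) atTop (𝓝 0) := h1.const_div_atTop K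
    refine h2.congr' ?_
    filter_upwards [eventually_gt_atTop 0] with n hn
    have h3 : (0 : ℝ) < √(n : ℝ) := Real.sqrt_pos.2 (by exact_mod_cast hn)
    have h4 : (n : ℝ) = √(n : ℝ) * √(n : ℝ) := (Real.mul_self_sqrt (by positivity)).symm
    have h5 : K * √(n : ℝ) / (√(n : ℝ) * √(n : ℝ)) = K / √(n : ℝ) := by
      field_simp
    rw [← h4] at h5
    exact h5.symm
  -- the Lipschitz bound
  have lip : ∀ a ∈ Icc (0 : ℝ) 1, ∀ b ∈ Icc (0 : ℝ) 1,
      |a - b| ≤ Real.exp |β| * |g β a - g β b| := by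
    have h0 : ∀ a b : ℝ, 0 ≤ a → a ≤ b → b ≤ 1 → b - a ≤ Real.exp |β| * (g β b - g β a) := by
      intro a b ha hab hb
      have h1 := glip a b ha hab hb
      have h2 : Real.exp |β| * (Real.exp (-|β|) * (b - a)) = b - a := by
        rw [← mul_assoc, ← Real.exp_add]
        simp
      rw [← h2]
      exact mul_le_mul_of_nonneg_left h1 (Real.exp_pos _).le
    intro a ha b hb
    rcases le_total a b with h | h
    · have h1 := h0 a b ha.1 h hb.2
      rw [abs_sub_comm a b, abs_of_nonneg (sub_nonneg.2 h), abs_sub_comm (g β a)]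
      exact h1.trans (mul_le_mul_of_nonneg_left (le_abs_self _) (Real.exp_pos _).le)
    · have h1 := h0 b a hb.1 h ha.2
      rw [abs_of_nonneg (sub_nonneg.2 h)]
      exact h1.trans (mul_le_mul_of_nonneg_left (le_abs_self _) (Real.exp_pos _).le)
  rw [Metric.tendsto_nhds]
  intro δ hδ
  obtain ⟨ε, hε⟩ : ∃ ε, ε = δ / (4 * Real.exp |β|) := ⟨_, rfl⟩
  have hε0 : 0 < ε := by rw [hε]; positivity
  have hc1 : ∀ᶠ n in atTop, |c n - g β U| < ε := by
    have h1 := Metric.tendsto_nhds.1 hcl ε hε0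
    simpa [Real.dist_eq] using h1
  have hr1 : ∀ᶠ n : ℕ in atTop, K * √(n : ℝ) / n < ε := (tendsto_order.1 hroot).2 ε hε0
  filter_upwards [hqn ε hε0, ht, hm, hc1, hr1, eventually_gt_atTop 0] with n hn htn hmn hcn hrn hn0
  have hn0' : (0 : ℝ) < n := by exact_mod_cast hn0
  have hqp := hq n
  obtain ⟨A, hA⟩ : ∃ A : Equiv.Perm (Fin n) → ℝ, A = fun π => qn (q n) (Fc (t n) (m n) π) -
    qn (q n) (m n) * qn (q n) (t n) / qn (q n) n := ⟨_, rfl⟩
  have hmax : 1 ≤ max (q n) (q n)⁻¹ := by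
    rcases le_total 1 (q n) with h | h
    · exact h.trans (le_max_left _ _)
    · exact (one_le_inv₀ hqp |>.2 h).trans (le_max_right _ _)
  have hpow : ∀ j ≤ n, q n ^ j ≤ K := fun j hj =>
    (pow_le_pow_left₀ hqp.le (le_max_left _ _) j).trans
      ((pow_le_pow_right₀ hmax hj).trans (hK n))
  have hqnm : qn (q n) (m n) ≤ n * K := by
    unfold qn
    calc ∑ j ∈ Finset.range (m n), q n ^ j ≤ ∑ j ∈ Finset.range (m n), K :=
          Finset.sum_le_sum fun j hj => hpow j ((Finset.mem_range.1 hj).le.trans hmn)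
      _ = (m n : ℝ) * K := by simp
      _ ≤ n * K := by
          have : (m n : ℝ) ≤ n := by exact_mod_cast hmn
          gcongr
  have hqnn : 0 < qn (q n) n := by
    unfold qn
    exact Finset.sum_pos (fun j _ => by positivity) (Finset.nonempty_range_iff.2 hn0.ne')
  have hqm0 : 0 ≤ qn (q n) (m n) := by
    unfold qn
    exact Finset.sum_nonneg fun j _ => by positivity
  have hAV : ∑ π : Equiv.Perm (Fin n), mallows (q n) n π * A π ^ 2 ≤ (K * √(n : ℝ)) ^ 2 := by
    have h1 := hV (q n) hqp n (t n) (m n) hn0 htn hmn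
    rw [hA]
    refine h1.trans ?_
    rw [mul_pow, Real.sq_sqrt hn0'.le]
    calc max 1 (q n ^ n) * qn (q n) (m n) ≤ K * (n * K) := by
          apply mul_le_mul (max_le hK1 (hpow n le_rfl)) hqnm hqm0 (by linarith)
      _ = K ^ 2 * n := by ring
  have hs : 0 < K * √(n : ℝ) := mul_pos (by linarith) (Real.sqrt_pos.2 hn0')
  have hA1 := cs (fun π => mallows (q n) n π) A (fun π => mallows_nonneg hqp n π)
    (mallows_sum hqp n) _ hs hAV
  have hpt : ∀ π : Equiv.Perm (Fin n), |(Fc (t n) (m n) π : ℝ) / n - U| ≤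
      Real.exp |β| * (ε + |A π| / n + ε) := by
    intro π
    have hF := Fc_le (t n) (m n) π
    have hF1 : (Fc (t n) (m n) π : ℝ) / n ∈ Icc (0 : ℝ) 1 :=
      ⟨by positivity, div_le_one_of_le₀ (by exact_mod_cast hF) hn0'.le⟩
    refine (lip _ hF1 U hU01).trans (mul_le_mul_of_nonneg_left ?_ (Real.exp_pos _).le)
    have h1 := hn _ hF
    have h2 : qn (q n) (Fc (t n) (m n) π) / n - c n = A π / n := by
      rw [hc, hA]
      field_simp
    have h3 : |qn (q n) (Fc (t n) (m n) π) / n - c n| = |A π| / n := by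
      rw [h2, abs_div, abs_of_pos hn0']
    have h4 : g β ((Fc (t n) (m n) π : ℝ) / n) - g β U =
        -(qn (q n) (Fc (t n) (m n) π) / n - g β ((Fc (t n) (m n) π : ℝ) / n)) +
          (qn (q n) (Fc (t n) (m n) π) / n - c n) + (c n - g β U) := by ring
    rw [h4]
    refine (abs_add_three _ _ _).trans ?_
    rw [abs_neg, h3]
    linarith
  have hsum : ∑ π : Equiv.Perm (Fin n), mallows (q n) n π *
      |(Fc (t n) (m n) π : ℝ) / n - U| ≤ Real.exp |β| * (2 * ε + K * √(n : ℝ) / n) := by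
    calc ∑ π : Equiv.Perm (Fin n), mallows (q n) n π * |(Fc (t n) (m n) π : ℝ) / n - U|
        ≤ ∑ π : Equiv.Perm (Fin n), mallows (q n) n π * (Real.exp |β| * (ε + |A π| / n + ε)) :=
          Finset.sum_le_sum fun π _ =>
            mul_le_mul_of_nonneg_left (hpt π) (mallows_nonneg hqp n π)
      _ = Real.exp |β| * ((∑ π : Equiv.Perm (Fin n), mallows (q n) n π) * (2 * ε) +
            (∑ π : Equiv.Perm (Fin n), mallows (q n) n π * |A π|) / n) := by
          rw [Finset.sum_mul, Finset.sum_div, ← Finset.sum_add_distrib, Finset.mul_sum]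
          refine Finset.sum_congr rfl fun π _ => ?_
          ring
      _ ≤ Real.exp |β| * (2 * ε + K * √(n : ℝ) / n) := by
          rw [mallows_sum hqp n, one_mul]
          gcongr
  have hnn : 0 ≤ ∑ π : Equiv.Perm (Fin n), mallows (q n) n π *
      |(Fc (t n) (m n) π : ℝ) / n - U| :=
    Finset.sum_nonneg fun π _ => mul_nonneg (mallows_nonneg hqp n π) (abs_nonneg _)
  rw [Real.dist_eq, sub_zero, abs_of_nonneg hnn]
  refine hsum.trans_lt ?_
  have h5 : Real.exp |β| * (2 * ε + K * √(n : ℝ) / n) ≤ Real.exp |β| * (3 * ε) := by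
    apply mul_le_mul_of_nonneg_left _ (Real.exp_pos _).le
    linarith
  refine h5.trans_lt ?_
  rw [hε]
  have h6 := Real.exp_pos |β|
  have h7 : Real.exp |β| * (3 * (δ / (4 * Real.exp |β|))) = 3 / 4 * δ := by
    field_simp
  rw [h7]
  linarith

end Pool.Agent.K3h9.FF
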